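import Pool.Agent.Helper52.EK.Defs
set_option autoImplicit false
open Complex
open scoped ComplexConjugate

/-! Project EK, E5: the potentials `U, V, V2, W, W2` of the certificate, with their derivatives
and bounds.  All are `|X-1|^2 * N/D^2`, `D = 1 + 5 |X|^2`, `N` a polynomial in `x = Re X`,
`y = Im X`.  Everything is written with two real variables `x y`. -/

namespace Pool.Agent.Helper2.EK

open Pool.Agent.Helper52.EK

/-! ### calculus of `C1f` -/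

theorem c1_congr {W Wx Wy W' Wx' Wy' : ℂ → ℝ} (h : C1f W Wx Wy) (e : ∀ X, W' X = W X)
    (ex : ∀ X, Wx' X = Wx X) (ey : ∀ X, Wy' X = Wy X) : C1f W' Wx' Wy' := by
  obtain rfl : W' = W := funext e
  obtain rfl : Wx' = Wx := funext ex
  obtain rfl : Wy' = Wy := funext ey
  exact h

theorem c1_const (c : ℝ) : C1f (fun _ => c) (fun _ => 0) (fun _ => 0) := by
  refine ⟨fun X => ?_, continuous_const, continuous_const⟩
  simpa using hasFDerivAt_const c X

theorem c1_re : C1f (fun X => X.re) (fun _ => 1) (fun _ => 0) := by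
  refine ⟨fun X => ?_, continuous_const, continuous_const⟩
  have h : HasFDerivAt (fun X : ℂ => X.re) reCLM X := reCLM.hasFDerivAt
  refine h.congr_fderiv ?_
  ext1 v
  simp

theorem c1_im : C1f (fun X => X.im) (fun _ => 0) (fun _ => 1) := by
  refine ⟨fun X => ?_, continuous_const, continuous_const⟩
  have h : HasFDerivAt (fun X : ℂ => X.im) imCLM X := imCLM.hasFDerivAt
  refine h.congr_fderiv ?_
  ext1 v
  simp

theorem C1f_cont {W Wx Wy : ℂ → ℝ} (h : C1f W Wx Wy) : Continuous W :=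
  continuous_iff_continuousAt.2 fun X => (h.hd X).continuousAt

theorem c1_add {A Ax Ay B Bx By : ℂ → ℝ} (hA : C1f A Ax Ay) (hB : C1f B Bx By) :
    C1f (fun X => A X + B X) (fun X => Ax X + Bx X) (fun X => Ay X + By X) := by
  refine ⟨fun X => ?_, hA.cx.add hB.cx, hA.cy.add hB.cy⟩
  refine ((hA.hd X).add (hB.hd X)).congr_fderiv ?_
  ext1 v
  simp
  ring

theorem c1_sub {A Ax Ay B Bx By : ℂ → ℝ} (hA : C1f A Ax Ay) (hB : C1f B Bx By) :
    C1f (fun X => A X - B X) (fun X => Ax X - Bx X) (fun X => Ay X - By X) := by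
  refine ⟨fun X => ?_, hA.cx.sub hB.cx, hA.cy.sub hB.cy⟩
  refine ((hA.hd X).sub (hB.hd X)).congr_fderiv ?_
  ext1 v
  simp
  ring

theorem c1_mul {A Ax Ay B Bx By : ℂ → ℝ} (hA : C1f A Ax Ay) (hB : C1f B Bx By) :
    C1f (fun X => A X * B X) (fun X => Ax X * B X + A X * Bx X)
      (fun X => Ay X * B X + A X * By X) := by
  refine ⟨fun X => ?_, (hA.cx.mul (C1f_cont hB)).add ((C1f_cont hA).mul hB.cx),
    (hA.cy.mul (C1f_cont hB)).add ((C1f_cont hA).mul hB.cy)⟩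
  refine ((hA.hd X).mul (hB.hd X)).congr_fderiv ?_
  ext1 v
  simp
  ring

theorem c1_inv {B Bx By : ℂ → ℝ} (hB : C1f B Bx By) (h0 : ∀ X, B X ≠ 0) :
    C1f (fun X => (B X)⁻¹) (fun X => -Bx X / B X ^ 2) (fun X => -By X / B X ^ 2) := by
  refine ⟨fun X => ?_, hB.cx.neg.div₀ ((C1f_cont hB).pow 2) fun X => pow_ne_zero 2 (h0 X),
    hB.cy.neg.div₀ ((C1f_cont hB).pow 2) fun X => pow_ne_zero 2 (h0 X)⟩
  refine ((hasDerivAt_inv (h0 X)).comp_hasFDerivAt X (hB.hd X)).congr_fderiv ?_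
  ext1 v
  simp
  ring

/-! ### the potentials, in two real variables -/

/-- `1 + 5 |X|^2` -/
noncomputable def Dp (x y : ℝ) : ℝ := 1 + 5 * (x ^ 2 + y ^ 2)
/-- `|X - 1|^2` -/
noncomputable def Fp (x y : ℝ) : ℝ := (x - 1) ^ 2 + y ^ 2

theorem Dp_ge (x y : ℝ) : 1 ≤ Dp x y := by unfold Dp; nlinarith [sq_nonneg x, sq_nonneg y]
theorem Dp_pos (x y : ℝ) : 0 < Dp x y := zero_lt_one.trans_le (Dp_ge x y)

/-- `f2 N / D^2` and its partial derivatives, for `N` with derivatives `Nx, Ny` -/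
noncomputable def gW (N x y : ℝ) : ℝ := Fp x y * N / Dp x y ^ 2
noncomputable def gWx (N Nx x y : ℝ) : ℝ :=
  ((2 * (x - 1) * N + Fp x y * Nx) * Dp x y - 20 * x * (Fp x y * N)) / Dp x y ^ 3
noncomputable def gWy (N Ny x y : ℝ) : ℝ :=
  ((2 * y * N + Fp x y * Ny) * Dp x y - 20 * y * (Fp x y * N)) / Dp x y ^ 3

noncomputable def NU (x y : ℝ) : ℝ :=
  27 / 5 * Dp x y ^ 2 - 13 / 2 * x * Dp x y - 6 / 5 - 7 * x ^ 2
noncomputable def NUx (x y : ℝ) : ℝ :=
  108 * x * Dp x y - 13 / 2 * Dp x y - 65 * x ^ 2 - 14 * x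
noncomputable def NUy (x y : ℝ) : ℝ := 108 * y * Dp x y - 65 * x * y
noncomputable def NV (_x y : ℝ) : ℝ := -14 * y
noncomputable def NV2 (x y : ℝ) : ℝ :=
  7 / 5 * Dp x y ^ 2 + 7 / 2 * Dp x y - 10 * x * Dp x y - 3 + 7 * x - 22 * x ^ 2
noncomputable def NV2x (x y : ℝ) : ℝ :=
  28 * x * Dp x y + 35 * x - 10 * Dp x y - 100 * x ^ 2 + 7 - 44 * x
noncomputable def NV2y (x y : ℝ) : ℝ := 28 * y * Dp x y + 35 * y - 100 * x * y
noncomputable def NW (x y : ℝ) : ℝ := 8 * Dp x y + 20 * x * Dp x y + 61 * x ^ 2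
noncomputable def NWx (x y : ℝ) : ℝ := 80 * x + 20 * Dp x y + 200 * x ^ 2 + 122 * x
noncomputable def NWy (x y : ℝ) : ℝ := 80 * y + 200 * x * y
noncomputable def NW2 (x y : ℝ) : ℝ := -7 * y * Dp x y
noncomputable def NW2x (x y : ℝ) : ℝ := -70 * x * y
noncomputable def NW2y (x y : ℝ) : ℝ := -7 * Dp x y - 70 * y ^ 2

/-- `h = f2 NU`, its first derivatives and its Laplacian -/
noncomputable def hh (x y : ℝ) : ℝ := Fp x y * NU x y
noncomputable def hx (x y : ℝ) : ℝ := 2 * (x - 1) * NU x y + Fp x y * NUx x y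
noncomputable def hy (x y : ℝ) : ℝ := 2 * y * NU x y + Fp x y * NUy x y
noncomputable def NUxx (x y : ℝ) : ℝ :=
  108 * Dp x y + 1080 * x ^ 2 - 65 * x - 130 * x - 14
noncomputable def NUxy (x y : ℝ) : ℝ := 1080 * x * y - 65 * y
noncomputable def NUyy (x y : ℝ) : ℝ := 108 * Dp x y + 1080 * y ^ 2 - 65 * x
noncomputable def hLap (x y : ℝ) : ℝ :=
  4 * NU x y + 4 * ((x - 1) * NUx x y + y * NUy x y) + Fp x y * (NUxx x y + NUyy x y)
noncomputable def N4 (x y : ℝ) : ℝ :=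
  Dp x y ^ 2 * hLap x y - 40 * Dp x y * (x * hx x y + y * hy x y)
    + hh x y * (600 * (x ^ 2 + y ^ 2) - 40 * Dp x y)

/-! ### the functions of `X` -/

noncomputable def U (X : ℂ) : ℝ := gW (NU X.re X.im) X.re X.im
noncomputable def Ux (X : ℂ) : ℝ := gWx (NU X.re X.im) (NUx X.re X.im) X.re X.im
noncomputable def Uy (X : ℂ) : ℝ := gWy (NU X.re X.im) (NUy X.re X.im) X.re X.im
noncomputable def LapU (X : ℂ) : ℝ := N4 X.re X.im / Dp X.re X.im ^ 4
noncomputable def V (X : ℂ) : ℝ := gW (NV X.re X.im) X.re X.im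
noncomputable def Vx (X : ℂ) : ℝ := gWx (NV X.re X.im) 0 X.re X.im
noncomputable def Vy (X : ℂ) : ℝ := gWy (NV X.re X.im) (-14) X.re X.im
noncomputable def V2 (X : ℂ) : ℝ := gW (NV2 X.re X.im) X.re X.im
noncomputable def V2x (X : ℂ) : ℝ := gWx (NV2 X.re X.im) (NV2x X.re X.im) X.re X.im
noncomputable def V2y (X : ℂ) : ℝ := gWy (NV2 X.re X.im) (NV2y X.re X.im) X.re X.im
noncomputable def W (X : ℂ) : ℝ := gW (NW X.re X.im) X.re X.im
noncomputable def Wx (X : ℂ) : ℝ := gWx (NW X.re X.im) (NWx X.re X.im) X.re X.im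
noncomputable def Wy (X : ℂ) : ℝ := gWy (NW X.re X.im) (NWy X.re X.im) X.re X.im
noncomputable def W2 (X : ℂ) : ℝ := gW (NW2 X.re X.im) X.re X.im
noncomputable def W2x (X : ℂ) : ℝ := gWx (NW2 X.re X.im) (NW2x X.re X.im) X.re X.im
noncomputable def W2y (X : ℂ) : ℝ := gWy (NW2 X.re X.im) (NW2y X.re X.im) X.re X.im

theorem Fp_eq (X : ℂ) : Fp X.re X.im = ‖X - 1‖ ^ 2 := by
  rw [← Complex.normSq_eq_norm_sq, Complex.normSq_apply]
  simp [Fp]
  ring

/-! ### `C1f` -/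

theorem c1_D : C1f (fun X => Dp X.re X.im) (fun X => 10 * X.re) (fun X => 10 * X.im) := by
  refine c1_congr (c1_add (c1_const 1) (c1_mul (c1_const 5)
    (c1_add (c1_mul c1_re c1_re) (c1_mul c1_im c1_im)))) ?_ ?_ ?_ <;> intro X <;>
    (try simp only [Dp]) <;> ring

theorem c1_F : C1f (fun X => Fp X.re X.im) (fun X => 2 * (X.re - 1)) (fun X => 2 * X.im) := by
  refine c1_congr (c1_add (c1_mul (c1_sub c1_re (c1_const 1)) (c1_sub c1_re (c1_const 1)))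
    (c1_mul c1_im c1_im)) ?_ ?_ ?_ <;> intro X <;> (try simp only [Fp]) <;> ring

theorem c1_NU : C1f (fun X => NU X.re X.im) (fun X => NUx X.re X.im) (fun X => NUy X.re X.im) := by
  refine c1_congr (c1_sub (c1_sub (c1_sub (c1_mul (c1_const (27 / 5)) (c1_mul c1_D c1_D))
    (c1_mul (c1_const (13 / 2)) (c1_mul c1_re c1_D))) (c1_const (6 / 5)))
    (c1_mul (c1_const 7) (c1_mul c1_re c1_re))) ?_ ?_ ?_ <;> intro X <;>
    simp only [NU, NUx, NUy] <;> ring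

theorem c1_NUx : C1f (fun X => NUx X.re X.im) (fun X => NUxx X.re X.im)
    (fun X => NUxy X.re X.im) := by
  refine c1_congr (c1_sub (c1_sub (c1_sub (c1_mul (c1_const 108) (c1_mul c1_re c1_D))
    (c1_mul (c1_const (13 / 2)) c1_D)) (c1_mul (c1_const 65) (c1_mul c1_re c1_re)))
    (c1_mul (c1_const 14) c1_re)) ?_ ?_ ?_ <;> intro X <;>
    simp only [NUx, NUxx, NUxy] <;> ring

theorem c1_NUy : C1f (fun X => NUy X.re X.im) (fun X => NUxy X.re X.im)
    (fun X => NUyy X.re X.im) := by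
  refine c1_congr (c1_sub (c1_mul (c1_const 108) (c1_mul c1_im c1_D))
    (c1_mul (c1_const 65) (c1_mul c1_re c1_im))) ?_ ?_ ?_ <;> intro X <;>
    simp only [NUy, NUxy, NUyy] <;> ring

theorem c1_NV : C1f (fun X => NV X.re X.im) (fun _ => 0) (fun _ => -14) := by
  refine c1_congr (c1_mul (c1_const (-14)) c1_im) ?_ ?_ ?_ <;> intro X <;>
    (try simp only [NV]) <;> ring

theorem c1_NV2 : C1f (fun X => NV2 X.re X.im) (fun X => NV2x X.re X.im)
    (fun X => NV2y X.re X.im) := by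
  refine c1_congr (c1_sub (c1_add (c1_sub (c1_sub (c1_add
    (c1_mul (c1_const (7 / 5)) (c1_mul c1_D c1_D)) (c1_mul (c1_const (7 / 2)) c1_D))
    (c1_mul (c1_const 10) (c1_mul c1_re c1_D))) (c1_const 3)) (c1_mul (c1_const 7) c1_re))
    (c1_mul (c1_const 22) (c1_mul c1_re c1_re))) ?_ ?_ ?_ <;> intro X <;>
    simp only [NV2, NV2x, NV2y] <;> ring

theorem c1_NW : C1f (fun X => NW X.re X.im) (fun X => NWx X.re X.im)
    (fun X => NWy X.re X.im) := by
  refine c1_congr (c1_add (c1_add (c1_mul (c1_const 8) c1_D)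
    (c1_mul (c1_const 20) (c1_mul c1_re c1_D))) (c1_mul (c1_const 61) (c1_mul c1_re c1_re)))
    ?_ ?_ ?_ <;> intro X <;> simp only [NW, NWx, NWy] <;> ring

theorem c1_NW2 : C1f (fun X => NW2 X.re X.im) (fun X => NW2x X.re X.im)
    (fun X => NW2y X.re X.im) := by
  refine c1_congr (c1_mul (c1_const (-7)) (c1_mul c1_im c1_D)) ?_ ?_ ?_ <;> intro X <;>
    simp only [NW2, NW2x, NW2y] <;> ring

/-- `A / D^k` -/
theorem c1_divD {A Ax Ay : ℂ → ℝ} (hA : C1f A Ax Ay) (k : ℕ) :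
    C1f (fun X => A X / Dp X.re X.im ^ k)
      (fun X => (Ax X * Dp X.re X.im - 10 * k * X.re * A X) / Dp X.re X.im ^ (k + 1))
      (fun X => (Ay X * Dp X.re X.im - 10 * k * X.im * A X) / Dp X.re X.im ^ (k + 1)) := by
  induction k with
  | zero =>
    refine c1_congr hA ?_ ?_ ?_ <;> intro X
    · simp
    · have := (Dp_pos X.re X.im).ne'
      field_simp
      simp
    · have := (Dp_pos X.re X.im).ne'
      field_simp
      simp
  | succ k ih =>
    refine c1_congr (c1_mul ih (c1_inv c1_D fun X => (Dp_pos X.re X.im).ne')) ?_ ?_ ?_ <;>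
      intro X <;> have := (Dp_pos X.re X.im).ne' <;> push_cast <;> field_simp <;> ring

theorem c1_gW {N Nx Ny : ℂ → ℝ} (hN : C1f N Nx Ny) :
    C1f (fun X => gW (N X) X.re X.im) (fun X => gWx (N X) (Nx X) X.re X.im)
      (fun X => gWy (N X) (Ny X) X.re X.im) := by
  refine c1_congr (c1_divD (c1_mul c1_F hN) 2) ?_ ?_ ?_ <;> intro X <;>
    simp only [gW, gWx, gWy] <;> norm_num <;> ring

theorem c1_V : C1f V Vx Vy := c1_gW c1_NV
theorem c1_V2 : C1f V2 V2x V2y := c1_gW c1_NV2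
theorem c1_W : C1f W Wx Wy := c1_gW c1_NW
theorem c1_W2 : C1f W2 W2x W2y := c1_gW c1_NW2
theorem c1_U : C1f U Ux Uy := c1_gW c1_NU

theorem c1_hh : C1f (fun X => hh X.re X.im) (fun X => hx X.re X.im) (fun X => hy X.re X.im) := by
  refine c1_congr (c1_mul c1_F c1_NU) ?_ ?_ ?_ <;> intro X <;> simp only [hh, hx, hy]

noncomputable def hxx (x y : ℝ) : ℝ :=
  2 * NU x y + 4 * (x - 1) * NUx x y + Fp x y * NUxx x y
noncomputable def hxy (x y : ℝ) : ℝ :=
  2 * (x - 1) * NUy x y + 2 * y * NUx x y + Fp x y * NUxy x y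
noncomputable def hyy (x y : ℝ) : ℝ := 2 * NU x y + 4 * y * NUy x y + Fp x y * NUyy x y

theorem c1_hx : C1f (fun X => hx X.re X.im) (fun X => hxx X.re X.im)
    (fun X => hxy X.re X.im) := by
  refine c1_congr (c1_add (c1_mul (c1_mul (c1_const 2) (c1_sub c1_re (c1_const 1))) c1_NU)
    (c1_mul c1_F c1_NUx)) ?_ ?_ ?_ <;> intro X <;> simp only [hx, hxx, hxy] <;> ring

theorem c1_hy : C1f (fun X => hy X.re X.im) (fun X => hxy X.re X.im)
    (fun X => hyy X.re X.im) := by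
  refine c1_congr (c1_add (c1_mul (c1_mul (c1_const 2) c1_im) c1_NU)
    (c1_mul c1_F c1_NUy)) ?_ ?_ ?_ <;> intro X <;> simp only [hy, hxy, hyy] <;> ring

theorem c2_U : C2f U Ux Uy LapU := by
  refine ⟨c1_U, ?_⟩
  have a : C1f Ux (fun X => ((hxx X.re X.im * Dp X.re X.im + hx X.re X.im * (10 * X.re)
      - 20 * hh X.re X.im - 20 * X.re * hx X.re X.im) * Dp X.re X.im
      - 30 * X.re * (hx X.re X.im * Dp X.re X.im - 20 * X.re * hh X.re X.im))
        / Dp X.re X.im ^ 4)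
      (fun X => ((hxy X.re X.im * Dp X.re X.im + hx X.re X.im * (10 * X.im)
      - 20 * X.re * hy X.re X.im) * Dp X.re X.im
      - 30 * X.im * (hx X.re X.im * Dp X.re X.im - 20 * X.re * hh X.re X.im))
        / Dp X.re X.im ^ 4) := by
    refine c1_congr (c1_divD (c1_sub (c1_mul c1_hx c1_D)
      (c1_mul (c1_const 20) (c1_mul c1_re c1_hh))) 3) ?_ ?_ ?_ <;> intro X <;>
      simp only [Ux, gWx, hx, hh] <;> norm_num <;> ring
  have b : C1f Uy (fun X => ((hxy X.re X.im * Dp X.re X.im + hy X.re X.im * (10 * X.re)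
      - 20 * X.im * hx X.re X.im) * Dp X.re X.im
      - 30 * X.re * (hy X.re X.im * Dp X.re X.im - 20 * X.im * hh X.re X.im))
        / Dp X.re X.im ^ 4)
      (fun X => ((hyy X.re X.im * Dp X.re X.im + hy X.re X.im * (10 * X.im)
      - 20 * hh X.re X.im - 20 * X.im * hy X.re X.im) * Dp X.re X.im
      - 30 * X.im * (hy X.re X.im * Dp X.re X.im - 20 * X.im * hh X.re X.im))
        / Dp X.re X.im ^ 4) := by
    refine c1_congr (c1_divD (c1_sub (c1_mul c1_hy c1_D)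
      (c1_mul (c1_const 20) (c1_mul c1_im c1_hh))) 3) ?_ ?_ ?_ <;> intro X <;>
      simp only [Uy, gWy, hy, hh] <;> norm_num <;> ring
  refine ⟨_, _, _, a, c1_congr b (fun _ => rfl) (fun X => ?_) (fun _ => rfl), fun X => ?_⟩
  · congr 1
    ring
  · simp only [LapU, N4, hLap, hxx, hyy, hx, hy, hh]
    have := (Dp_pos X.re X.im).ne'
    rw [← add_div]
    congr 1
    ring

/-! ### bounds -/

theorem gW_le {N C x y : ℝ} (h : |N| ≤ C * Dp x y ^ 2) : |gW N x y| ≤ C * Fp x y := by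
  have hD := Dp_pos x y
  have hF : 0 ≤ Fp x y := by unfold Fp; positivity
  unfold gW
  rw [abs_div, abs_mul, abs_of_nonneg hF, abs_of_pos (pow_pos hD 2), div_le_iff₀ (pow_pos hD 2)]
  nlinarith [mul_le_mul_of_nonneg_left h hF]

theorem abs_x_le (x y : ℝ) : |x| ≤ Dp x y / 4 := by
  have : |x| ^ 2 = x ^ 2 := sq_abs x
  unfold Dp
  nlinarith [sq_nonneg (|x| - 1 / 2), sq_nonneg y, abs_nonneg x]

theorem abs_y_le (x y : ℝ) : |y| ≤ Dp x y / 4 := by
  have : |y| ^ 2 = y ^ 2 := sq_abs y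
  unfold Dp
  nlinarith [sq_nonneg (|y| - 1 / 2), sq_nonneg x, abs_nonneg y]

theorem sq_x_le (x y : ℝ) : x ^ 2 ≤ Dp x y / 5 := by
  unfold Dp
  nlinarith [sq_nonneg y]

theorem NU_le (x y : ℝ) : |NU x y| ≤ 30 * Dp x y ^ 2 := by
  have h1 := Dp_ge x y
  have h2 := abs_le.1 (abs_x_le x y)
  have h3 := sq_x_le x y
  have h4 : |x * Dp x y| ≤ Dp x y ^ 2 / 4 := by
    rw [abs_mul, abs_of_pos (Dp_pos x y)]
    nlinarith [abs_x_le x y, Dp_pos x y]
  have h5 := abs_le.1 h4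
  unfold NU
  rw [abs_le]
  constructor <;> nlinarith [sq_nonneg x, sq_nonneg (Dp x y - 1)]

theorem NW_le (x y : ℝ) : |NW x y| ≤ 30 * Dp x y ^ 2 := by
  have h1 := Dp_ge x y
  have h2 := abs_le.1 (abs_x_le x y)
  have h3 := sq_x_le x y
  have h4 : |x * Dp x y| ≤ Dp x y ^ 2 / 4 := by
    rw [abs_mul, abs_of_pos (Dp_pos x y)]
    nlinarith [abs_x_le x y, Dp_pos x y]
  have h5 := abs_le.1 h4
  unfold NW
  rw [abs_le]
  constructor <;> nlinarith [sq_nonneg x, sq_nonneg (Dp x y - 1)]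

theorem NW2_le (x y : ℝ) : |NW2 x y| ≤ 30 * Dp x y ^ 2 := by
  have h1 := Dp_ge x y
  have h4 : |y * Dp x y| ≤ Dp x y ^ 2 / 4 := by
    rw [abs_mul, abs_of_pos (Dp_pos x y)]
    nlinarith [abs_y_le x y, Dp_pos x y]
  have h5 := abs_le.1 h4
  unfold NW2
  rw [abs_le]
  constructor <;> nlinarith [sq_nonneg (Dp x y - 1)]

theorem U_le (X : ℂ) : |U X| ≤ 30 * ‖X - 1‖ ^ 2 := by
  rw [← Fp_eq]; exact gW_le (NU_le _ _)
theorem W_le (X : ℂ) : |W X| ≤ 30 * ‖X - 1‖ ^ 2 := by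
  rw [← Fp_eq]; exact gW_le (NW_le _ _)
theorem W2_le (X : ℂ) : |W2 X| ≤ 30 * ‖X - 1‖ ^ 2 := by
  rw [← Fp_eq]; exact gW_le (NW2_le _ _)

/-! ### the gradient in complex form -/

/-- `n(N) = N D + (1/2) f ((N_x - i N_y) D - 20 N (x - i y))`, `f = X - 1` -/
noncomputable def nn (N Nx Ny x y : ℝ) : ℂ :=
  (N * Dp x y : ℝ) + 1 / 2 * ((x : ℂ) + y * I - 1) *
    (((Nx : ℂ) - Ny * I) * (Dp x y : ℝ) - 20 * N * ((x : ℂ) - y * I))

theorem grad_eq (N Nx Ny x y : ℝ) :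
    ((gWx N Nx x y : ℝ) : ℂ) - (gWy N Ny x y : ℝ) * I =
      2 * ((x : ℂ) - y * I - 1) * nn N Nx Ny x y / (Dp x y : ℝ) ^ 3 := by
  have hD : ((Dp x y : ℝ) : ℂ) ≠ 0 := by exact_mod_cast (Dp_pos x y).ne'
  have hI : I ^ 2 = -1 := I_sq
  unfold gWx gWy nn
  push_cast
  rw [eq_div_iff (pow_ne_zero 3 hD)]
  have e1 : ∀ A B : ℂ, (A / (Dp x y : ℂ) ^ 3 - B / (Dp x y : ℂ) ^ 3 * I) * (Dp x y : ℂ) ^ 3 =
      A - B * I := by
    intro A B
    field_simp
  rw [e1]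
  have e2 : ((Fp x y : ℝ) : ℂ) = ((x : ℂ) - 1) ^ 2 + (y : ℂ) ^ 2 := by
    unfold Fp
    push_cast
    ring
  rw [e2]
  linear_combination (-20 * (x : ℂ) * N * y ^ 2 + 20 * N * y ^ 3 * I + y ^ 2 * Nx * (Dp x y : ℂ)
    - y ^ 2 * (Dp x y : ℂ) * Ny * I) * hI

end Pool.Agent.Helper2.EK
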